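import Pool.Agent.Lib.MP_3b0e0c_al.Coset

namespace Pool.Agent.Results.MP_3b0e0c_al.Metabelian

open Pool.Agent.Lib.MP_3b0e0c_al

/-- A 2-group in which any two elements generate a metabelian subgroup is locally finite. -/
theorem result (G : Type) [Group G] (h2 : ∀ g : G, ∃ k : ℕ, orderOf g = 2 ^ k)
    (h : ∀ a b : G, derivedSeries (Subgroup.closure ({a, b} : Set G)) 2 = ⊥) :
    ∀ s : Finset G, ((Subgroup.closure (s : Set G) : Subgroup G) : Set G).Finite := by
  have hp : IsPGroup 2 G := fun g => (h2 g).imp fun k hk => by rw [← hk, pow_orderOf_eq_one]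
  refine fun s => LF_of_BM hp (fun a b => ?_) s s.finite_toSet (Set.subset_univ _)
  have := congrArg (Subgroup.map (Subgroup.closure ({a, b} : Set G)).subtype) (h a b)
  rwa [derivedSeries_succ, derivedSeries_succ, derivedSeries_zero, Subgroup.map_commutator,
    Subgroup.map_commutator, ← MonoidHom.range_eq_map, Subgroup.subtype_range,
    Subgroup.map_bot] at this

end Pool.Agent.Results.MP_3b0e0c_al.Metabelian
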